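import Pool.Agent.helper72.ODK.Spec

set_option autoImplicit false

namespace Pool.Agent.helper72.UP

open Finset

lemma DIW_sh (f : ℕ → ℕ) (K : ℕ) : ∑ i ∈ Icc 1 K, f i = ∑ i ∈ range K, f (i + 1) := by
  induction K with
  | zero => simp
  | succ K ih => rw [sum_Icc_succ_top (by omega), ih, sum_range_succ]

theorem DIW : DIW_stmt := by
  intro n K hn
  have h1 : (n + 1) / 2 = (n - 1) / 2 + 1 := by omega
  have h2 : (2 * K + 1) / 2 = K := by omega
  unfold WW VV uu
  rw [h1, h2]
  generalize (n - 1) / 2 = a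
  generalize n / 2 = b
  rw [DIW_sh, DIW_sh]
  push_cast
  rw [← sum_add_distrib, ← sum_add_distrib]
  refine sum_congr rfl ?_
  intro i _
  rw [Nat.choose_succ_succ a i]
  push_cast
  ring

end Pool.Agent.helper72.UP
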